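import Pool.Agent.Helper6.CS.Goals2

/-!
# Project CS (MP_81e84b_lc): packet DEC, decomposition of variable words
-/

namespace Pool.Agent.Helper62.CS

open Pool.Agent.Helper6.CS

set_option synthInstance.maxSize 1000000000 in
set_option synthInstance.maxHeartbeats 400000 in
theorem dec1 (M : Type) [World M] (a k : M) (v : Wd M) (hv : VW a (k + 1) v) :
    ∃ u z : Wd M, VW a k u ∧ Over (a + k + 1) z ∧ v = u ++ Wd.sg (a + k) ++ z := by
  obtain ⟨h1, h2, h3⟩ := hv
  obtain ⟨q, ⟨hq1, hq2⟩, hq3⟩ := exists_least (P := fun q : M => q < v.len ∧ v.get q = a + k)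
    inferInstance (h2 k ((World.lt_succ _ _).2 le_rfl))
  have hle : ∀ i : M, i < v.len → v.get i ≤ a + k := by
    intro i hi
    have h := h1 i hi
    rw [← add_assoc, World.lt_succ] at h
    exact h
  have hu : ∀ i, i < q → (Wd.of q v.get).get i = v.get i := fun i hi => Wd.get_of_lt _ _ hi
  have hulen : (Wd.of q v.get).len = q := Wd.len_of _ _
  obtain ⟨l, hl⟩ := World.exists_add (q + 1) v.len (World.add_one_le hq1)
  have hz : ∀ i, i < l → (Wd.of l fun i => v.get (q + 1 + i)).get i = v.get (q + 1 + i) :=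
    fun i hi => Wd.get_of_lt _ _ hi
  have hzlen : (Wd.of l fun i => v.get (q + 1 + i)).len = l := Wd.len_of _ _
  have key : ∀ m : M, ∀ i, i + m = k → ∃ p, p ≤ q ∧ v.get p = a + i := by
    refine ind inferInstance ?_ ?_
    · intro i hi
      rw [add_zero] at hi
      subst hi
      exact ⟨q, le_rfl, hq2⟩
    · intro m ih i hi
      obtain ⟨p, hp1, hp2⟩ := ih (i + 1) (by rw [← hi]; ring)
      obtain ⟨q', h4, h5⟩ := h3 i p (lt_of_le_of_lt hp1 hq1) hp2
      exact ⟨q', h4.le.trans hp1, h5⟩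
  refine ⟨Wd.of q v.get, Wd.of l fun i => v.get (q + 1 + i), ⟨?_, ?_, ?_⟩, ?_, ?_⟩
  · intro i hi
    rw [hulen] at hi
    rw [hu i hi]
    refine lt_of_le_of_ne (hle i (hi.trans hq1)) fun h => ?_
    exact absurd (hq3 i ⟨hi.trans hq1, h⟩) (not_le.2 hi)
  · intro i hi
    obtain ⟨m, hm⟩ := World.exists_add i k hi.le
    obtain ⟨p, hp1, hp2⟩ := key m i hm.symm
    have hp3 : p < q := by
      refine lt_of_le_of_ne hp1 fun h => ?_
      rw [h, hq2] at hp2
      exact absurd (add_left_cancel hp2) hi.ne'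
    exact ⟨p, by rw [hulen]; exact hp3, by rw [hu p hp3, hp2]⟩
  · intro i p hp hp2
    rw [hulen] at hp
    rw [hu p hp] at hp2
    obtain ⟨q', h4, h5⟩ := h3 i p (hp.trans hq1) hp2
    exact ⟨q', h4, by rw [hu q' (h4.trans hp), h5]⟩
  · intro i hi
    rw [hzlen] at hi
    rw [hz i hi, World.lt_succ]
    refine hle _ ?_
    rw [hl]
    exact add_lt_add_right hi _
  · refine Wd.ext' ?_ fun i hi => ?_
    · rw [Wd.len_append, Wd.len_append, hulen, hzlen, Wd.len_sg, hl]
    · rw [hl] at hi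
      rcases Wd.lt_cases hi with h | ⟨j, hj, rfl⟩
      · rw [Wd.get_append_left _ _ (by rw [Wd.len_append, hulen, Wd.len_sg]; exact h)]
        rcases Wd.lt_cases h with h' | ⟨j, hj, rfl⟩
        · rw [Wd.get_append_left _ _ (by rw [hulen]; exact h'), hu i h']
        · have hj0 : j = 0 := by
            have h4 : j < 0 + 1 := by rwa [zero_add]
            rw [World.lt_succ] at h4
            exact le_antisymm h4 (World.zero_le' _)
          subst hj0
          have h5 := Wd.get_append_right (Wd.of q v.get) (Wd.sg (a + k)) 0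
          rw [hulen, Wd.get_sg_zero] at h5
          rw [h5, add_zero, hq2]
      · have h5 := Wd.get_append_right (Wd.of q v.get ++ Wd.sg (a + k))
          (Wd.of l fun i => v.get (q + 1 + i)) j
        rw [Wd.len_append, hulen, Wd.len_sg, hz j hj] at h5
        rw [h5]

theorem dec2 (M : Type) [World M] (a k : M) (u z : Wd M) (hu : VW a k u)
    (hz : Over (a + k + 1) z) : VW a (k + 1) (u ++ Wd.sg (a + k) ++ z) := by
  obtain ⟨h1, h2, h3⟩ := hu
  have hover : Over (a + (k + 1)) (u ++ Wd.sg (a + k) ++ z) := by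
    rw [← add_assoc, Over.append_iff, Over.append_iff, Over.sg_iff]
    exact ⟨⟨h1.mono ((World.lt_succ _ _).2 le_rfl).le, (World.lt_succ _ _).2 le_rfl⟩, hz⟩
  have hlen : (u ++ Wd.sg (a + k) ++ z).len = u.len + 1 + z.len := by
    rw [Wd.len_append, Wd.len_append, Wd.len_sg]
  have hlt1 : u.len < (u ++ Wd.sg (a + k)).len := by
    rw [Wd.len_append, Wd.len_sg]
    exact (World.lt_succ _ _).2 le_rfl
  have hlt2 : u.len < (u ++ Wd.sg (a + k) ++ z).len := by
    rw [Wd.len_append]
    exact lt_of_lt_of_le hlt1 (le_add_of_nonneg_right (World.zero_le' _))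
  have hg : ∀ p, p < u.len → (u ++ Wd.sg (a + k) ++ z).get p = u.get p := by
    intro p hp
    rw [Wd.get_append_left _ _ (hp.trans hlt1), Wd.get_append_left _ _ hp]
  refine ⟨hover, ?_, ?_⟩
  · intro i hi
    rw [World.lt_succ] at hi
    rcases hi.lt_or_eq with h | rfl
    · obtain ⟨p, hp1, hp2⟩ := h2 i h
      exact ⟨p, hp1.trans hlt2, by rw [hg p hp1, hp2]⟩
    · refine ⟨u.len, hlt2, ?_⟩
      rw [Wd.get_append_left _ _ hlt1]
      have h5 := Wd.get_append_right u (Wd.sg (a + i)) 0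
      rw [add_zero, Wd.get_sg_zero] at h5
      exact h5
  · intro i p hp hp2
    rcases lt_or_ge p u.len with h | h
    · rw [hg p h] at hp2
      obtain ⟨q, hq1, hq2⟩ := h3 i p h hp2
      exact ⟨q, hq1, by rw [hg q (hq1.trans h), hq2]⟩
    · have h4 := hover p hp
      rw [hp2] at h4
      have h5 : i + 1 < k + 1 := lt_of_add_lt_add_left h4
      have h6 : i < k := lt_of_add_lt_add_right h5
      obtain ⟨q, hq1, hq2⟩ := h2 i h6
      exact ⟨q, lt_of_lt_of_le hq1 h, by rw [hg q hq1, hq2]⟩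

theorem t_DEC : Pool.Agent.Helper6.CS.G_DEC :=
  fun M _ a k => ⟨dec1 M a k, dec2 M a k⟩

end Pool.Agent.Helper62.CS
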